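import Mathlib

set_option autoImplicit false

open Filter Topology Finset

namespace Pool.Agent.Results.MP_fe3f7a_an.WeakNH

/-! ### Growth functions -/

/-- The growth functions `exp (a j) j ^ d`. -/
noncomputable def e (g : ℝ × ℕ) (j : ℕ) : ℂ := (Real.exp (g.1 * j) : ℂ) * (j : ℂ) ^ g.2

theorem e_add (g g' : ℝ × ℕ) (j : ℕ) : e (g + g') j = e g j * e g' j := by
  unfold e
  rw [Prod.fst_add, Prod.snd_add, add_mul, Real.exp_add, pow_add]
  push_cast
  ring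

theorem e_zero (j : ℕ) : e 0 j = 1 := by
  simp [e]

/-- Evaluation of exponents. -/
noncomputable def eHom (j : ℕ) : Multiplicative (ℝ × ℕ) →* ℂ where
  toFun g := e g.toAdd j
  map_one' := e_zero j
  map_mul' _ _ := e_add _ _ j

/-- The ring of non-oscillating exponential polynomials. -/
abbrev R := AddMonoidAlgebra ℂ (ℝ × ℕ)

/-- Evaluation. -/
noncomputable def ev (j : ℕ) : R →ₐ[ℂ] ℂ := AddMonoidAlgebra.lift ℂ ℂ (ℝ × ℕ) (eHom j)

theorem ev_apply (j : ℕ) (a : R) : ev j a = a.coeff.sum fun g b => b * e g j := by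
  unfold ev
  rw [AddMonoidAlgebra.lift_apply]
  rfl

theorem ev_single (j : ℕ) (g : ℝ × ℕ) (c : ℂ) : ev j (AddMonoidAlgebra.single g c) = c * e g j := by
  unfold ev
  rw [AddMonoidAlgebra.lift_single]
  rfl

theorem e_ne_zero (g : ℝ × ℕ) (j : ℕ) (hj : j ≠ 0) : e g j ≠ 0 := by
  unfold e
  apply mul_ne_zero
  · exact_mod_cast (Real.exp_pos _).ne'
  · exact pow_ne_zero _ (by exact_mod_cast hj)

theorem e_ratio (g g' : ℝ × ℕ) (h : g.1 < g'.1 ∨ (g.1 = g'.1 ∧ g.2 < g'.2)) :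
    Tendsto (fun j => e g j / e g' j) atTop (𝓝 0) := by
  rcases h with h | ⟨h1, h2⟩
  · set r := Real.exp (g.1 - g'.1) with hr
    have hr1 : |r| < 1 := by
      rw [hr, abs_of_pos (Real.exp_pos _), Real.exp_lt_one_iff]
      linarith
    have h3 := tendsto_pow_const_mul_const_pow_of_abs_lt_one g.2 hr1
    refine squeeze_zero_norm' ?_ h3
    filter_upwards [eventually_ge_atTop 1] with j hj
    have hj' : (1 : ℝ) ≤ j := by exact_mod_cast hj
    unfold e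
    rw [norm_div, norm_mul, norm_mul, norm_pow, norm_pow, Complex.norm_real, Complex.norm_real,
      Complex.norm_natCast, Real.norm_eq_abs, Real.norm_eq_abs, Real.abs_exp, Real.abs_exp]
    have h4 : (1 : ℝ) ≤ (j : ℝ) ^ g'.2 := one_le_pow₀ hj'
    have h5 : r ^ j = Real.exp (g.1 * j) / Real.exp (g'.1 * j) := by
      rw [hr, ← Real.exp_nat_mul, ← Real.exp_sub]
      congr 1; ring
    rw [h5]
    have h6 := Real.exp_pos (g.1 * j)
    have h7 := Real.exp_pos (g'.1 * j)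
    rw [div_le_iff₀ (by positivity)]
    have h8 : (j : ℝ) ^ g.2 * (Real.exp (g.1 * j) / Real.exp (g'.1 * j)) *
        (Real.exp (g'.1 * j) * (j : ℝ) ^ g'.2) = Real.exp (g.1 * j) * (j : ℝ) ^ g.2 *
        (j : ℝ) ^ g'.2 := by
      field_simp
    rw [h8]
    exact le_mul_of_one_le_right (by positivity) h4
  · have h3 : Tendsto (fun j : ℕ => (1 : ℝ) / (j : ℝ) ^ (g'.2 - g.2)) atTop (𝓝 0) := by
      have h4 : Tendsto (fun j : ℕ => ((j : ℝ)) ^ (g'.2 - g.2)) atTop atTop :=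
        (tendsto_pow_atTop (by omega)).comp tendsto_natCast_atTop_atTop
      refine h4.inv_tendsto_atTop.congr (fun j => ?_)
      simp
    refine squeeze_zero_norm' ?_ h3
    filter_upwards [eventually_ge_atTop 1] with j hj
    have hj' : (1 : ℝ) ≤ j := by exact_mod_cast hj
    unfold e
    rw [norm_div, norm_mul, norm_mul, norm_pow, norm_pow, Complex.norm_real, Complex.norm_real,
      Complex.norm_natCast, Real.norm_eq_abs, Real.norm_eq_abs, Real.abs_exp, Real.abs_exp, h1]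
    have h7 := Real.exp_pos (g'.1 * j)
    obtain ⟨k, hk⟩ := Nat.exists_eq_add_of_lt h2
    have h9 : (0 : ℝ) < j := by linarith
    rw [hk, show g.2 + k + 1 - g.2 = k + 1 by omega, show g.2 + k + 1 = g.2 + (k + 1) by ring,
      pow_add]
    apply le_of_eq
    field_simp

/-! ### Elimination -/

/-- Evaluation of polynomials over `R`. -/
noncomputable def φ (j : ℕ) (z : ℂ) : Polynomial R →+* ℂ :=
  Polynomial.eval₂RingHom (ev j).toRingHom z

theorem φ_C (j : ℕ) (z : ℂ) (a : R) : φ j z (Polynomial.C a) = ev j a := by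
  simp [φ]

theorem φ_X (j : ℕ) (z : ℂ) : φ j z Polynomial.X = z := by
  simp [φ]

theorem elim {ι : Type*} [Fintype ι] (c : ι → ℂ) (g : ι → ℝ × ℕ) (m : ι → ℤ) (z : ℕ → ℂ)
    (hz : ∀ j, ‖z j‖ = 1) : ∃ (K : ℕ) (a : Fin (K + 1) × Fin (K + 1) → R), a ≠ 0 ∧
      ∀ j, ∑ pq, ev j (a pq) * (((∑ t, c t * e (g t) j * z j ^ (m t)).re : ℂ)) ^ (pq.1 : ℕ) *
        (((∑ t, c t * e (g t) j * z j ^ (m t)).im : ℂ)) ^ (pq.2 : ℕ) = 0 := by
  classical
  obtain ⟨M, hM1, hM⟩ : ∃ M : ℕ, 1 ≤ M ∧ ∀ t, (m t).natAbs ≤ M :=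
    ⟨∑ t, (m t).natAbs + 1, by omega, fun t => by
      have := single_le_sum (f := fun t => (m t).natAbs) (fun i _ => Nat.zero_le _) (mem_univ t)
      omega⟩
  -- the two Laurent polynomials, multiplied by `X ^ M`
  let Y : (ι → ℂ) → ℤ → Polynomial R := fun b s =>
    ∑ t, Polynomial.C (AddMonoidAlgebra.single (g t) (b t)) *
      Polynomial.X ^ (Int.toNat (M + s * m t))
  have hYdeg : ∀ b s, (s = 1 ∨ s = -1) → (Y b s).natDegree ≤ 2 * M := by
    intro b s hs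
    apply Polynomial.natDegree_sum_le_of_forall_le
    intro t _
    refine (Polynomial.natDegree_C_mul_X_pow_le _ _).trans ?_
    have := hM t
    rcases hs with h | h <;> subst h <;> omega
  have hz0 : ∀ j, z j ≠ 0 := fun j h0 => by
    have := hz j
    rw [h0, norm_zero] at this
    exact zero_ne_one this
  have hYev : ∀ b s j, (s = 1 ∨ s = -1) → φ j (z j) (Y b s) =
      z j ^ M * ∑ t, b t * e (g t) j * z j ^ (s * m t) := by
    intro b s j hs
    show φ j (z j) (∑ t, _) = _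
    rw [map_sum, mul_sum]
    apply sum_congr rfl
    intro t _
    rw [map_mul, map_pow, φ_C, φ_X, ev_single]
    have h1 : (0 : ℤ) ≤ M + s * m t := by
      have := hM t
      rcases hs with h | h <;> subst h <;> omega
    have h2 : z j ^ (Int.toNat (M + s * m t)) = z j ^ M * z j ^ (s * m t) := by
      rw [← zpow_natCast, Int.toNat_of_nonneg h1, zpow_add₀ (hz0 j), zpow_natCast]
    rw [h2]
    ring
  let w : ℕ → ℂ := fun j => ∑ t, c t * e (g t) j * z j ^ (m t)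
  have hconj : ∀ j, (starRingEnd ℂ) (w j) =
      ∑ t, (starRingEnd ℂ) (c t) * e (g t) j * z j ^ (-1 * m t) := by
    intro j
    show (starRingEnd ℂ) (∑ t, _) = _
    rw [map_sum]
    apply sum_congr rfl
    intro t _
    rw [map_mul, map_mul, map_zpow₀]
    have h1 : (starRingEnd ℂ) (e (g t) j) = e (g t) j := by
      unfold e
      rw [map_mul, map_pow, Complex.conj_ofReal, map_natCast]
    have h2 : (starRingEnd ℂ) (z j) = (z j)⁻¹ := by
      rw [Complex.inv_def, Complex.normSq_eq_norm_sq, hz]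
      simp
    rw [h1, h2, inv_zpow', neg_one_mul]
  let cA : Polynomial R := Polynomial.C (algebraMap ℂ R (1 / 2))
  let cB : Polynomial R := Polynomial.C (algebraMap ℂ R (1 / (2 * Complex.I)))
  let W := Y c 1
  let W' := Y (fun t => (starRingEnd ℂ) (c t)) (-1)
  let A := cA * (W + W')
  let B := cB * (W - W')
  have hWdeg : W.natDegree ≤ 2 * M := hYdeg _ _ (Or.inl rfl)
  have hWdeg' : W'.natDegree ≤ 2 * M := hYdeg _ _ (Or.inr rfl)
  have hAdeg : A.natDegree ≤ 2 * M := by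
    refine (Polynomial.natDegree_C_mul_le _ _).trans ?_
    exact (Polynomial.natDegree_add_le _ _).trans (max_le hWdeg hWdeg')
  have hBdeg : B.natDegree ≤ 2 * M := by
    refine (Polynomial.natDegree_C_mul_le _ _).trans ?_
    exact (Polynomial.natDegree_sub_le _ _).trans (max_le hWdeg hWdeg')
  have hWev : ∀ j, φ j (z j) W = z j ^ M * w j := by
    intro j
    rw [hYev c 1 j (Or.inl rfl)]
    simp [w]
  have hWev' : ∀ j, φ j (z j) W' = z j ^ M * (starRingEnd ℂ) (w j) := by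
    intro j
    rw [hYev _ (-1) j (Or.inr rfl), hconj]
  have hAev : ∀ j, φ j (z j) A = z j ^ M * ((w j).re : ℂ) := by
    intro j
    show φ j (z j) (cA * (W + W')) = _
    rw [map_mul, map_add, hWev, hWev', φ_C, AlgHom.commutes, ← mul_add, Complex.add_conj]
    simp only [Algebra.algebraMap_self, RingHom.id_apply]
    push_cast
    ring
  have hBev : ∀ j, φ j (z j) B = z j ^ M * ((w j).im : ℂ) := by
    intro j
    show φ j (z j) (cB * (W - W')) = _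
    rw [map_mul, map_sub, hWev, hWev', φ_C, AlgHom.commutes, ← mul_sub, Complex.sub_conj]
    simp only [Algebra.algebraMap_self, RingHom.id_apply]
    push_cast
    have := Complex.I_ne_zero
    field_simp
  set K := 4 * M with hK
  let G : Fin (K + 1) × Fin (K + 1) → Polynomial R := fun pq =>
    Polynomial.X ^ (M * (2 * K - pq.1 - pq.2)) * (A ^ (pq.1 : ℕ) * B ^ (pq.2 : ℕ))
  have hGdeg : ∀ pq, (G pq).natDegree < 4 * M * K + 1 := by
    intro pq
    have h1 : (G pq).natDegree ≤ M * (2 * K - pq.1 - pq.2) + (pq.1 * (2 * M) + pq.2 * (2 * M)) := by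
      refine (Polynomial.natDegree_mul_le).trans ?_
      apply add_le_add
      · exact Polynomial.natDegree_X_pow_le _
      · refine (Polynomial.natDegree_mul_le).trans ?_
        apply add_le_add
        · refine (Polynomial.natDegree_pow_le).trans ?_
          exact Nat.mul_le_mul_left _ hAdeg
        · refine (Polynomial.natDegree_pow_le).trans ?_
          exact Nat.mul_le_mul_left _ hBdeg
    have hp : (pq.1 : ℕ) ≤ K := Nat.lt_succ_iff.1 pq.1.2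
    have hq : (pq.2 : ℕ) ≤ K := Nat.lt_succ_iff.1 pq.2.2
    obtain ⟨s, hs⟩ : ∃ s, 2 * K = pq.1 + pq.2 + s := ⟨2 * K - pq.1 - pq.2, by omega⟩
    have h2 : 2 * K - pq.1 - pq.2 = s := by omega
    rw [h2] at h1
    have h3 : M * s + (pq.1 * (2 * M) + pq.2 * (2 * M)) ≤ 4 * M * K := by
      have h4 : (pq.1 : ℕ) + pq.2 ≤ 2 * K := by omega
      calc M * s + (pq.1 * (2 * M) + pq.2 * (2 * M)) = M * (pq.1 + pq.2 + s) + M * (pq.1 + pq.2) := by
            ring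
        _ ≤ M * (2 * K) + M * (2 * K) := by
            rw [← hs]; exact Nat.add_le_add_left (Nat.mul_le_mul_left _ h4) _
        _ = 4 * M * K := by ring
    omega
  let L : (Fin (K + 1) × Fin (K + 1) → R) →ₗ[R] (Fin (4 * M * K + 1) → R) :=
    Matrix.mulVecLin (fun i pq => (G pq).coeff i)
  have hLinj : ¬ Function.Injective L := by
    intro hinj
    have h1 := card_le_of_injective R L hinj
    rw [Fintype.card_prod, Fintype.card_fin, Fintype.card_fin, hK] at h1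
    nlinarith
  obtain ⟨a, ha0, haL⟩ : ∃ a, a ≠ 0 ∧ L a = 0 := by
    by_contra hno
    push Not at hno
    apply hLinj
    rw [injective_iff_map_eq_zero]
    intro a ha
    by_contra hne
    exact hno a hne ha
  refine ⟨K, a, ha0, fun j => ?_⟩
  have hpoly : ∑ pq, Polynomial.C (a pq) * G pq = 0 := by
    ext1 i
    rw [Polynomial.finsetSum_coeff, Polynomial.coeff_zero]
    by_cases hi : i < 4 * M * K + 1
    · have h1 := congrFun haL ⟨i, hi⟩
      have h2 : L a ⟨i, hi⟩ = ∑ pq, (G pq).coeff i * a pq := rfl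
      rw [h2] at h1
      rw [← Pi.zero_apply (i := (⟨i, hi⟩ : Fin (4 * M * K + 1))) (M := fun _ => R), ← h1]
      apply sum_congr rfl
      intro pq _
      rw [Polynomial.coeff_C_mul, mul_comm]
    · apply sum_eq_zero
      intro pq _
      rw [Polynomial.coeff_C_mul, Polynomial.coeff_eq_zero_of_natDegree_lt, mul_zero]
      have := hGdeg pq
      omega
  have h1 := congrArg (φ j (z j)) hpoly
  rw [map_sum, map_zero] at h1
  have h2 : ∀ pq, φ j (z j) (Polynomial.C (a pq) * G pq) = z j ^ (2 * M * K) *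
      (ev j (a pq) * ((w j).re : ℂ) ^ (pq.1 : ℕ) * ((w j).im : ℂ) ^ (pq.2 : ℕ)) := by
    intro pq
    show φ j (z j) (Polynomial.C (a pq) * (Polynomial.X ^ (M * (2 * K - pq.1 - pq.2)) *
      (A ^ (pq.1 : ℕ) * B ^ (pq.2 : ℕ)))) = _
    rw [map_mul, map_mul, map_mul, map_pow, map_pow, map_pow, φ_C, φ_X, hAev, hBev]
    have hp : (pq.1 : ℕ) ≤ K := Nat.lt_succ_iff.1 pq.1.2
    have hq : (pq.2 : ℕ) ≤ K := Nat.lt_succ_iff.1 pq.2.2
    obtain ⟨s, hs⟩ : ∃ s, 2 * K = pq.1 + pq.2 + s := ⟨2 * K - pq.1 - pq.2, by omega⟩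
    have h2 : 2 * K - pq.1 - pq.2 = s := by omega
    have h3 : 2 * M * K = M * s + M * pq.1 + M * pq.2 := by
      calc 2 * M * K = M * (2 * K) := by ring
        _ = _ := by rw [hs]; ring
    rw [h2, h3, pow_add, pow_add, mul_pow, mul_pow, ← pow_mul, ← pow_mul]
    ring
  rw [sum_congr rfl (fun pq _ => h2 pq), ← mul_sum] at h1
  rcases mul_eq_zero.1 h1 with h | h
  · exact absurd h (pow_ne_zero _ (hz0 j))
  · exact h

/-! ### Thin sequences -/

/-- The limit points of `u` lie within bounded distance of a real algebraic curve. -/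
def Thin (u : ℕ → ℂ) : Prop := ∃ P : Polynomial (Polynomial ℂ), P ≠ 0 ∧ ∃ H : ℝ, ∀ c : ℂ,
  (∀ w : ℂ, ‖w - c‖ ≤ H → P.evalEval (w.re : ℂ) (w.im : ℂ) ≠ 0) → ∀ᶠ j in atTop, 1 ≤ ‖u j - c‖

theorem thin_of_tendsto (u : ℕ → ℂ) (hu : Tendsto (fun j => ‖u j‖) atTop atTop) : Thin u := by
  refine ⟨1, one_ne_zero, 0, fun c _ => ?_⟩
  filter_upwards [hu.eventually_ge_atTop (1 + ‖c‖)] with j hj
  have := norm_sub_norm_le (u j) c
  linarith

theorem limit_coeff {ι : Type*} [Fintype ι] (a : ι → R) (ha : a ≠ 0) :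
    ∃ (g : ℝ × ℕ) (α : ι → ℂ), α ≠ 0 ∧
      ∀ i, Tendsto (fun j => ev j (a i) / e g j) atTop (𝓝 (α i)) := by
  classical
  let T : Finset (ℝ × ℕ) := univ.biUnion (fun i => (a i).coeff.support)
  have hsub : ∀ i, (a i).coeff.support ⊆ T := fun i => by
    intro x hx
    exact mem_biUnion.2 ⟨i, mem_univ _, hx⟩
  have hT : T.Nonempty := by
    by_contra hno
    rw [not_nonempty_iff_eq_empty] at hno
    apply ha
    funext i
    have h1 := hsub i
    rw [hno, subset_empty, Finsupp.support_eq_empty] at h1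
    show a i = 0
    apply AddMonoidAlgebra.coeff_injective
    rw [h1]
    rfl
  obtain ⟨g, hgT, hg⟩ := exists_max_image T toLex hT
  refine ⟨g, fun i => (a i).coeff g, ?_, ?_⟩
  · obtain ⟨i, _, hi⟩ := mem_biUnion.1 hgT
    intro h0
    have := congrFun h0 i
    exact (Finsupp.mem_support_iff.1 hi) this
  · intro i
    have h1 : ∀ j, ev j (a i) / e g j = ∑ x ∈ T, (a i).coeff x * (e x j / e g j) := by
      intro j
      rw [ev_apply, Finsupp.sum_of_support_subset _ (hsub i) _ (fun x _ => by simp), sum_div]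
      apply sum_congr rfl
      intro x _
      rw [mul_div_assoc]
    simp only [h1]
    have h2 : (a i).coeff g = ∑ x ∈ T, (a i).coeff x * (if x = g then 1 else 0) := by
      simp [hgT]
    rw [h2]
    apply tendsto_finsetSum
    intro x hx
    apply Tendsto.const_mul
    by_cases hxg : x = g
    · rw [if_pos hxg, hxg]
      refine tendsto_const_nhds.congr' ?_
      filter_upwards [eventually_ge_atTop 1] with j hj
      rw [div_self (e_ne_zero g j (by omega))]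
    · rw [if_neg hxg]
      apply e_ratio
      have h3 : toLex x < toLex g := lt_of_le_of_ne (hg x hx) (fun h => hxg (toLex.injective h))
      rw [Prod.Lex.lt_iff] at h3
      exact h3

theorem thin_of_elim {ι : Type*} [Fintype ι] (c : ι → ℂ) (g : ι → ℝ × ℕ) (m : ι → ℤ) (z : ℕ → ℂ)
    (hz : ∀ j, ‖z j‖ = 1) (u b : ℕ → ℂ) (h : ℝ) (hb : ∀ᶠ j in atTop, ‖b j‖ ≤ h)
    (hu : ∀ᶠ j in atTop, u j = ∑ t, c t * e (g t) j * z j ^ (m t) + b j) : Thin u := by
  classical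
  obtain ⟨K, a, ha0, hrel⟩ := elim c g m z hz
  obtain ⟨g₀, α, hα, hlim⟩ := limit_coeff a ha0
  let w : ℕ → ℂ := fun j => ∑ t, c t * e (g t) j * z j ^ (m t)
  let P : Polynomial (Polynomial ℂ) :=
    ∑ pq, Polynomial.monomial (pq.2 : ℕ) (Polynomial.monomial (pq.1 : ℕ) (α pq))
  have hPev : ∀ x y : ℂ, P.evalEval x y = ∑ pq, α pq * x ^ (pq.1 : ℕ) * y ^ (pq.2 : ℕ) := by
    intro x y
    simp [P, Polynomial.evalEval, Polynomial.eval_finsetSum, Polynomial.eval_monomial]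
  have hP0 : P ≠ 0 := by
    intro h0
    apply hα
    funext pq
    have h1 : (P.coeff (pq.2 : ℕ)).coeff (pq.1 : ℕ) = α pq := by
      simp only [P, Polynomial.finsetSum_coeff, Polynomial.coeff_monomial]
      rw [sum_eq_single pq]
      · simp
      · rintro pq' _ hne
        by_cases h2 : (pq'.2 : ℕ) = pq.2
        · rw [if_pos h2, Polynomial.coeff_monomial, if_neg]
          intro h1
          exact hne (Prod.ext (Fin.ext h1) (Fin.ext h2))
        · rw [if_neg h2, Polynomial.coeff_zero]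
      · intro h; exact absurd (mem_univ _) h
    rw [← h1, h0]
    simp
  refine ⟨P, hP0, |h| + 1, fun c₀ hc₀ => ?_⟩
  have hcont : Continuous (fun w : ℂ => ‖∑ pq : Fin (K + 1) × Fin (K + 1), α pq *
      (w.re : ℂ) ^ (pq.1 : ℕ) * (w.im : ℂ) ^ (pq.2 : ℕ)‖) := by fun_prop
  have hne : (Metric.closedBall c₀ (|h| + 1)).Nonempty :=
    ⟨c₀, Metric.mem_closedBall_self (by positivity)⟩
  obtain ⟨w₀, hw₀, hmin⟩ := (isCompact_closedBall c₀ (|h| + 1)).exists_isMinOn hne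
    hcont.continuousOn
  set δ := ‖∑ pq : Fin (K + 1) × Fin (K + 1), α pq *
      (w₀.re : ℂ) ^ (pq.1 : ℕ) * (w₀.im : ℂ) ^ (pq.2 : ℕ)‖ with hδ
  have hδpos : 0 < δ := by
    rw [hδ, norm_pos_iff, ← hPev]
    apply hc₀
    rw [Metric.mem_closedBall, dist_eq_norm] at hw₀
    exact hw₀
  set M := ‖c₀‖ + (|h| + 1) with hM
  have herr : Tendsto (fun j => ∑ pq : Fin (K + 1) × Fin (K + 1),
      ‖α pq - ev j (a pq) / e g₀ j‖ * M ^ (pq.1 : ℕ) * M ^ (pq.2 : ℕ)) atTop (𝓝 0) := by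
    have h0 : (0 : ℝ) = ∑ pq : Fin (K + 1) × Fin (K + 1),
      ‖α pq - α pq‖ * M ^ (pq.1 : ℕ) * M ^ (pq.2 : ℕ) := by simp
    rw [h0]
    apply tendsto_finsetSum
    intro pq _
    exact (((hlim pq).const_sub (α pq)).norm.mul_const _).mul_const _
  filter_upwards [hb, hu, herr.eventually_lt_const hδpos, eventually_ge_atTop 1] with j hbj huj
    herrj hj
  by_contra hno
  push Not at hno
  have hwj : ‖w j - c₀‖ ≤ |h| + 1 := by
    have h1 : w j - c₀ = (u j - c₀) - b j := by rw [huj]; show w j - c₀ = w j + b j - c₀ - b j; ring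
    rw [h1]
    have h2 := norm_sub_le (u j - c₀) (b j)
    have h3 := le_abs_self h
    linarith
  have hwM : ‖w j‖ ≤ M := by
    have h1 : w j = (w j - c₀) + c₀ := by ring
    rw [h1]
    have h2 := norm_add_le (w j - c₀) c₀
    linarith
  have hre : ‖((w j).re : ℂ)‖ ≤ M := by
    rw [Complex.norm_real, Real.norm_eq_abs]
    exact (Complex.abs_re_le_norm _).trans hwM
  have him : ‖((w j).im : ℂ)‖ ≤ M := by
    rw [Complex.norm_real, Real.norm_eq_abs]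
    exact (Complex.abs_im_le_norm _).trans hwM
  have hmin' := hmin (show w j ∈ Metric.closedBall c₀ (|h| + 1) by
    rw [Metric.mem_closedBall, dist_eq_norm]; exact hwj)
  have hmin'' : δ ≤ ‖∑ pq : Fin (K + 1) × Fin (K + 1), α pq *
      ((w j).re : ℂ) ^ (pq.1 : ℕ) * ((w j).im : ℂ) ^ (pq.2 : ℕ)‖ := hmin'
  have he := e_ne_zero g₀ j (by omega)
  have hrel' : ∑ pq : Fin (K + 1) × Fin (K + 1), ev j (a pq) / e g₀ j *
      ((w j).re : ℂ) ^ (pq.1 : ℕ) * ((w j).im : ℂ) ^ (pq.2 : ℕ) = 0 := by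
    have h1 := hrel j
    have h2 : ∑ pq : Fin (K + 1) × Fin (K + 1), ev j (a pq) / e g₀ j *
      ((w j).re : ℂ) ^ (pq.1 : ℕ) * ((w j).im : ℂ) ^ (pq.2 : ℕ) = (∑ pq, ev j (a pq) *
      ((w j).re : ℂ) ^ (pq.1 : ℕ) * ((w j).im : ℂ) ^ (pq.2 : ℕ)) / e g₀ j := by
      rw [sum_div]
      apply sum_congr rfl
      intro pq _
      ring
    rw [h2]
    show (∑ pq, ev j (a pq) * (((∑ t, c t * e (g t) j * z j ^ (m t)).re : ℂ)) ^ (pq.1 : ℕ) *
        (((∑ t, c t * e (g t) j * z j ^ (m t)).im : ℂ)) ^ (pq.2 : ℕ)) / _ = 0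
    rw [h1, zero_div]
  have hfin : ‖∑ pq : Fin (K + 1) × Fin (K + 1), α pq *
      ((w j).re : ℂ) ^ (pq.1 : ℕ) * ((w j).im : ℂ) ^ (pq.2 : ℕ)‖ ≤
      ∑ pq : Fin (K + 1) × Fin (K + 1),
      ‖α pq - ev j (a pq) / e g₀ j‖ * M ^ (pq.1 : ℕ) * M ^ (pq.2 : ℕ) := by
    rw [← sub_zero (∑ pq : Fin (K + 1) × Fin (K + 1), α pq *
      ((w j).re : ℂ) ^ (pq.1 : ℕ) * ((w j).im : ℂ) ^ (pq.2 : ℕ)), ← hrel', ← sum_sub_distrib]
    refine (norm_sum_le _ _).trans ?_
    apply sum_le_sum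
    intro pq _
    rw [← sub_mul, ← sub_mul, norm_mul, norm_mul, norm_pow, norm_pow]
    gcongr
  linarith

theorem evalEval_eq (P : Polynomial (Polynomial ℂ)) (x y : ℂ) :
    P.evalEval x y = ∑ k ∈ range (P.natDegree + 1), (P.coeff k).eval x * y ^ k := by
  unfold Polynomial.evalEval
  rw [Polynomial.eval_eq_sum_range (p := P), Polynomial.eval_finsetSum]
  apply sum_congr rfl
  intro k _
  simp

theorem zero_free (P : Polynomial (Polynomial ℂ)) (hP : P ≠ 0) (H : ℝ) : ∃ c : ℂ,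
    ∀ w : ℂ, ‖w - c‖ ≤ H → P.evalEval (w.re : ℂ) (w.im : ℂ) ≠ 0 := by
  classical
  set b := P.leadingCoeff with hb
  have hb0 : b ≠ 0 := Polynomial.leadingCoeff_ne_zero.2 hP
  set S := ∑ r ∈ b.roots.toFinset, ‖r‖ with hS
  have hS0 : 0 ≤ S := sum_nonneg fun _ _ => norm_nonneg _
  set x₀ := |H| + 1 + S with hx₀
  have hroot : ∀ x : ℝ, x₀ - |H| ≤ x → b.eval (x : ℂ) ≠ 0 := by
    intro x hx h0
    have h1 : (x : ℂ) ∈ b.roots.toFinset := by
      rw [Multiset.mem_toFinset, Polynomial.mem_roots hb0]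
      exact h0
    have h2 : ‖(x : ℂ)‖ ≤ S := single_le_sum (f := fun r : ℂ => ‖r‖)
      (fun _ _ => norm_nonneg _) h1
    rw [Complex.norm_real, Real.norm_eq_abs] at h2
    have h3 := le_abs_self x
    linarith
  have hI : (Set.Icc (x₀ - |H|) (x₀ + |H|)).Nonempty := ⟨x₀, by
    constructor <;> linarith [abs_nonneg H]⟩
  have hcont : ∀ q : Polynomial ℂ, Continuous (fun x : ℝ => ‖q.eval (x : ℂ)‖) := fun q =>
    (q.continuous.comp Complex.continuous_ofReal).norm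
  obtain ⟨x₁, hx₁, hmin⟩ := isCompact_Icc.exists_isMinOn hI (hcont b).continuousOn
  set β := ‖b.eval (x₁ : ℂ)‖ with hβ
  have hβ0 : 0 < β := norm_pos_iff.2 (hroot x₁ hx₁.1)
  have hcont2 : Continuous (fun x : ℝ => ∑ k ∈ range P.natDegree, ‖(P.coeff k).eval (x : ℂ)‖) :=
    continuous_finsetSum _ fun k _ => hcont _
  obtain ⟨x₂, hx₂, hmax⟩ := isCompact_Icc.exists_isMaxOn hI hcont2.continuousOn
  set B := ∑ k ∈ range P.natDegree, ‖(P.coeff k).eval (x₂ : ℂ)‖ with hB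
  have hB0 : 0 ≤ B := sum_nonneg fun _ _ => norm_nonneg _
  set Y := 1 + B / β with hY
  have hY1 : 1 ≤ Y := by rw [hY]; have := div_nonneg hB0 hβ0.le; linarith
  refine ⟨⟨x₀, Y + |H|⟩, fun w hw => ?_⟩
  have hre : |w.re - x₀| ≤ |H| := by
    have := (Complex.abs_re_le_norm (w - ⟨x₀, Y + |H|⟩)).trans (hw.trans (le_abs_self H))
    simpa using this
  have him : |w.im - (Y + |H|)| ≤ |H| := by
    have := (Complex.abs_im_le_norm (w - ⟨x₀, Y + |H|⟩)).trans (hw.trans (le_abs_self H))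
    simpa using this
  rw [abs_le] at hre him
  have hx : w.re ∈ Set.Icc (x₀ - |H|) (x₀ + |H|) := ⟨by linarith, by linarith⟩
  have hy : Y ≤ w.im := by linarith
  have h1 : β ≤ ‖b.eval (w.re : ℂ)‖ := hmin hx
  have h2 : ∑ k ∈ range P.natDegree, ‖(P.coeff k).eval (w.re : ℂ)‖ ≤ B := hmax hx
  rw [evalEval_eq, sum_range_succ]
  intro h0
  have hy1 : 1 ≤ w.im := hY1.trans hy
  have hcoef : P.coeff P.natDegree = b := rfl
  rw [hcoef] at h0
  have h3 : ‖b.eval (w.re : ℂ) * (w.im : ℂ) ^ P.natDegree‖ =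
      ‖∑ k ∈ range P.natDegree, (P.coeff k).eval (w.re : ℂ) * (w.im : ℂ) ^ k‖ := by
    rw [← norm_neg (∑ k ∈ range P.natDegree, _)]
    congr 1
    linear_combination h0
  rw [norm_mul, norm_pow, Complex.norm_real, Real.norm_eq_abs, abs_of_pos (by linarith)] at h3
  have h4 : ‖∑ k ∈ range P.natDegree, (P.coeff k).eval (w.re : ℂ) * (w.im : ℂ) ^ k‖ * w.im ≤
      B * w.im ^ P.natDegree := by
    refine (mul_le_mul_of_nonneg_right (norm_sum_le _ _) (by linarith)).trans ?_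
    rw [sum_mul]
    refine (?_ : _ ≤ (∑ k ∈ range P.natDegree, ‖(P.coeff k).eval (w.re : ℂ)‖) *
      w.im ^ P.natDegree).trans (mul_le_mul_of_nonneg_right h2 (by positivity))
    rw [sum_mul]
    apply sum_le_sum
    intro k hk
    rw [mem_range] at hk
    rw [norm_mul, norm_pow, Complex.norm_real, Real.norm_eq_abs, abs_of_pos (by linarith),
      mul_assoc, ← pow_succ]
    exact mul_le_mul_of_nonneg_left (pow_le_pow_right₀ hy1 (by omega)) (norm_nonneg _)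
  rw [← h3] at h4
  have h5 : 0 < w.im ^ P.natDegree := by positivity
  have h6 : ‖b.eval (w.re : ℂ)‖ * w.im ≤ B := by
    have : (‖b.eval (w.re : ℂ)‖ * w.im) * w.im ^ P.natDegree ≤ B * w.im ^ P.natDegree := by
      calc _ = ‖b.eval (w.re : ℂ)‖ * w.im ^ P.natDegree * w.im := by ring
        _ ≤ _ := h4
    exact le_of_mul_le_mul_right this h5
  have h7 : β * Y ≤ B := by
    refine le_trans ?_ h6
    exact mul_le_mul h1 hy (by linarith) (norm_nonneg _)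
  have h8 : β * Y = β + B := by
    rw [hY, mul_add, mul_one, mul_div_cancel₀ _ hβ0.ne']
  linarith

theorem not_dense (u : ℕ → ℂ) (N : ℕ) (hN : 0 < N)
    (h : ∀ r < N, Thin (fun j => u (N * j + r))) : ¬ Dense (Set.range u) := by
  classical
  have h' : ∀ r : ℕ, ∃ (P : Polynomial (Polynomial ℂ)) (H : ℝ), r < N → P ≠ 0 ∧ ∀ c : ℂ,
      (∀ w : ℂ, ‖w - c‖ ≤ H → P.evalEval (w.re : ℂ) (w.im : ℂ) ≠ 0) →
      ∀ᶠ j in atTop, 1 ≤ ‖u (N * j + r) - c‖ := by
    intro r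
    by_cases hr : r < N
    · obtain ⟨P, hP, H, hH⟩ := h r hr
      exact ⟨P, H, fun _ => ⟨hP, hH⟩⟩
    · exact ⟨0, 0, fun h => absurd h hr⟩
  choose P H hPH using h'
  have hprod : ∏ r ∈ range N, P r ≠ 0 :=
    prod_ne_zero_iff.2 fun r hr => (hPH r (mem_range.1 hr)).1
  obtain ⟨c, hc⟩ := zero_free _ hprod (∑ r ∈ range N, |H r|)
  have hev : ∀ r ∈ range N, ∀ᶠ j in atTop, 1 ≤ ‖u (N * j + r) - c‖ := by
    intro r hr
    apply (hPH r (mem_range.1 hr)).2 c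
    intro w hw
    have h1 : H r ≤ ∑ r ∈ range N, |H r| :=
      (le_abs_self _).trans (single_le_sum (f := fun r => |H r|) (fun _ _ => abs_nonneg _) hr)
    have h2 := hc w (hw.trans h1)
    have h3 : (∏ r ∈ range N, P r).evalEval (w.re : ℂ) (w.im : ℂ) =
        ∏ r ∈ range N, (P r).evalEval (w.re : ℂ) (w.im : ℂ) :=
      map_prod (Polynomial.evalEvalRingHom (w.re : ℂ) (w.im : ℂ)) P (range N)
    rw [h3, prod_ne_zero_iff] at h2
    exact h2 r hr
  have hev2 : ∀ᶠ j in atTop, ∀ r ∈ range N, 1 ≤ ‖u (N * j + r) - c‖ :=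
    (eventually_all_finset _).2 hev
  obtain ⟨J, hJ⟩ := hev2.exists_forall_of_atTop
  intro hd
  have hfin : (u '' {k | k < N * J}).Finite := (Set.finite_lt_nat _).image _
  have hd2 := hd.sdiff_finite hfin
  obtain ⟨v, hv1, hv2⟩ := hd2.inter_open_nonempty _ (Metric.isOpen_ball (x := c) (ε := 1))
    ⟨c, Metric.mem_ball_self one_pos⟩
  obtain ⟨⟨k, rfl⟩, hk2⟩ := hv2
  have hkJ : N * J ≤ k := by
    by_contra hno
    push Not at hno
    exact hk2 ⟨k, hno, rfl⟩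
  have h1 := hJ (k / N) ((Nat.le_div_iff_mul_le hN).2 (by rwa [mul_comm])) (k % N)
    (mem_range.2 (Nat.mod_lt _ hN))
  rw [Nat.div_add_mod] at h1
  rw [Metric.mem_ball, dist_eq_norm] at hv1
  linarith

/-! ### One residue class -/

theorem poly_geom (q : Polynomial ℂ) (r : ℂ) (hr : ‖r‖ < 1) :
    Tendsto (fun j : ℕ => r ^ j * q.eval (j : ℂ)) atTop (𝓝 0) := by
  have h1 : ∀ j : ℕ, r ^ j * q.eval (j : ℂ) =
      ∑ k ∈ range (q.natDegree + 1), q.coeff k * ((j : ℂ) ^ k * r ^ j) := by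
    intro j
    rw [Polynomial.eval_eq_sum_range, mul_sum]
    apply sum_congr rfl
    intro k _
    ring
  simp only [h1]
  have h2 : (0 : ℂ) = ∑ k ∈ range (q.natDegree + 1), q.coeff k * 0 := by simp
  rw [h2]
  apply tendsto_finsetSum
  intro k _
  apply Tendsto.const_mul
  rw [tendsto_zero_iff_norm_tendsto_zero]
  have h3 := tendsto_pow_const_mul_const_pow_of_abs_lt_one k (r := ‖r‖) (by rwa [abs_norm])
  refine h3.congr (fun j => ?_)
  rw [norm_mul, norm_pow, norm_pow, Complex.norm_natCast]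

theorem poly_inf (q : Polynomial ℂ) (hq : q.natDegree ≠ 0) :
    Tendsto (fun j : ℕ => ‖q.eval (j : ℂ)‖) atTop atTop := by
  apply Polynomial.tendsto_norm_atTop q (Polynomial.natDegree_pos_iff_degree_pos.1 (by omega))
  simp only [Complex.norm_natCast]
  exact tendsto_natCast_atTop_atTop

theorem poly_below (q : Polynomial ℂ) (hq : q ≠ 0) :
    ∃ δ : ℝ, 0 < δ ∧ ∀ᶠ j : ℕ in atTop, δ ≤ ‖q.eval (j : ℂ)‖ := by
  by_cases h : q.natDegree = 0
  · rw [Polynomial.eq_C_of_natDegree_eq_zero h] at hq ⊢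
    refine ⟨‖q.coeff 0‖, ?_, Eventually.of_forall fun j => by simp⟩
    rw [norm_pos_iff]
    intro h0
    apply hq
    rw [h0, Polynomial.C_0]
  · exact ⟨1, one_pos, (poly_inf q h).eventually_ge_atTop 1⟩

theorem classD (v : ℕ → ℂ) (G : Finset ℂ) (q : ℂ → Polynomial ℂ) (hG0 : ∀ Λ ∈ G, Λ ≠ 0)
    (hq : ∀ Λ ∈ G, q Λ ≠ 0)
    (hv : ∀ᶠ j : ℕ in atTop, v j = ∑ Λ ∈ G, Λ ^ j * (q Λ).eval (j : ℂ))
    (hyp : ∀ Λ₁ ∈ G, ∀ Λ₂ ∈ G, Λ₁ ≠ Λ₂ → ‖Λ₁‖ = ‖Λ₂‖ →
      (1 < ‖Λ₁‖ ∨ (‖Λ₁‖ = 1 ∧ (q Λ₁).natDegree ≠ 0)) →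
      (1 < ‖Λ₂‖ ∨ (‖Λ₂‖ = 1 ∧ (q Λ₂).natDegree ≠ 0)) →
      (∀ Λ ∈ G, (1 < ‖Λ‖ ∨ (‖Λ‖ = 1 ∧ (q Λ).natDegree ≠ 0)) → ‖Λ‖ ≤ ‖Λ₁‖) →
      ∃ ζ : ℂ, ‖ζ‖ = 1 ∧ ∀ Λ ∈ G, (1 < ‖Λ‖ ∨ (‖Λ‖ = 1 ∧ (q Λ).natDegree ≠ 0)) →
        ∃ m : ℤ, Λ = ‖Λ‖ * ζ ^ m) : Thin v := by
  classical
  set U := G.filter (fun Λ => 1 < ‖Λ‖ ∨ (‖Λ‖ = 1 ∧ (q Λ).natDegree ≠ 0)) with hU
  set B := G.filter (fun Λ => ¬ (1 < ‖Λ‖ ∨ (‖Λ‖ = 1 ∧ (q Λ).natDegree ≠ 0))) with hB
  have hsplit : ∀ f : ℂ → ℂ, ∑ Λ ∈ G, f Λ = ∑ Λ ∈ U, f Λ + ∑ Λ ∈ B, f Λ := fun f =>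
    (sum_filter_add_sum_filter_not G _ f).symm
  -- the bounded part
  obtain ⟨h, hh⟩ : ∃ h : ℝ, ∀ᶠ j : ℕ in atTop, ‖∑ Λ ∈ B, Λ ^ j * (q Λ).eval (j : ℂ)‖ ≤ h := by
    have h1 : ∀ Λ ∈ B, ∃ b : ℝ, ∀ᶠ j : ℕ in atTop, ‖Λ ^ j * (q Λ).eval (j : ℂ)‖ ≤ b := by
      intro Λ hΛ
      rw [hB, mem_filter] at hΛ
      obtain ⟨hΛG, hΛ⟩ := hΛ
      push Not at hΛ
      rcases hΛ.1.lt_or_eq with h2 | h2
      · refine ⟨1, ?_⟩
        have h3 := (poly_geom (q Λ) Λ h2).norm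
        rw [norm_zero] at h3
        filter_upwards [h3.eventually_lt_const one_pos] with j hj
        exact hj.le
      · refine ⟨‖(q Λ).coeff 0‖, Eventually.of_forall fun j => ?_⟩
        have h3 := hΛ.2 h2
        conv_lhs => rw [Polynomial.eq_C_of_natDegree_eq_zero h3]
        rw [norm_mul, norm_pow, h2, one_pow, one_mul, Polynomial.eval_C]
    choose! b hb using h1
    refine ⟨∑ Λ ∈ B, b Λ, ?_⟩
    filter_upwards [(eventually_all_finset B).2 hb] with j hj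
    exact (norm_sum_le _ _).trans (sum_le_sum hj)
  -- the elimination case
  have helim : (∃ ζ : ℂ, ‖ζ‖ = 1 ∧ ∀ Λ ∈ U, ∃ m : ℤ, Λ = ‖Λ‖ * ζ ^ m) → Thin v := by
    rintro ⟨ζ, hζ, hm⟩
    choose! m hm using hm
    obtain ⟨D, hD⟩ : ∃ D, ∀ Λ ∈ U, (q Λ).natDegree < D :=
      ⟨∑ Λ ∈ U, (q Λ).natDegree + 1, fun Λ hΛ => Nat.lt_succ_of_le
        (single_le_sum (f := fun Λ => (q Λ).natDegree) (fun _ _ => Nat.zero_le _) hΛ)⟩
    refine thin_of_elim (ι := ↥(U ×ˢ range D)) (fun t => (q t.1.1).coeff t.1.2)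
      (fun t => (Real.log ‖t.1.1‖, t.1.2)) (fun t => m t.1.1) (fun j => ζ ^ j)
      (fun j => by rw [norm_pow, hζ, one_pow]) v
      (fun j => ∑ Λ ∈ B, Λ ^ j * (q Λ).eval (j : ℂ)) h hh ?_
    filter_upwards [hv] with j hj
    rw [hj, hsplit]
    congr 1
    rw [sum_coe_sort (U ×ˢ range D) (fun t : ℂ × ℕ => (q t.1).coeff t.2 *
      e (Real.log ‖t.1‖, t.2) j * (ζ ^ j) ^ (m t.1)), sum_product]
    apply sum_congr rfl
    intro Λ hΛ
    rw [Polynomial.eval_eq_sum_range' (hD Λ hΛ), mul_sum]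
    apply sum_congr rfl
    intro k _
    have h1 : Λ ^ j = (Real.exp (Real.log ‖Λ‖ * j) : ℂ) * (ζ ^ j) ^ (m Λ) := by
      have hΛ0 : Λ ≠ 0 := hG0 Λ (mem_of_mem_filter Λ hΛ)
      have h2 : Real.exp (Real.log ‖Λ‖ * j) = ‖Λ‖ ^ j := by
        rw [mul_comm, Real.exp_nat_mul, Real.exp_log (norm_pos_iff.2 hΛ0)]
      rw [h2]
      conv_lhs => rw [hm Λ hΛ]
      rw [mul_pow, Complex.ofReal_pow, ← zpow_natCast (ζ ^ m Λ) j, ← zpow_mul, ← zpow_natCast ζ j,
        ← zpow_mul, mul_comm (m Λ)]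
    unfold e
    rw [h1]
    ring
  by_cases hUne : U.Nonempty
  swap
  · apply helim
    refine ⟨1, by simp, fun Λ hΛ => absurd ⟨Λ, hΛ⟩ hUne⟩
  obtain ⟨Λ₁, hΛ₁U, hmax⟩ := exists_max_image U (fun Λ => ‖Λ‖) hUne
  have hΛ₁ := (mem_filter.1 hΛ₁U)
  by_cases hex : ∃ Λ₂ ∈ U, Λ₂ ≠ Λ₁ ∧ ‖Λ₂‖ = ‖Λ₁‖
  · obtain ⟨Λ₂, hΛ₂U, hne, heq⟩ := hex
    have hΛ₂ := (mem_filter.1 hΛ₂U)
    obtain ⟨ζ, hζ, hm⟩ := hyp Λ₁ hΛ₁.1 Λ₂ hΛ₂.1 hne.symm heq.symm hΛ₁.2 hΛ₂.2
      (fun Λ hΛ hΛ' => hmax Λ (mem_filter.2 ⟨hΛ, hΛ'⟩))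
    exact helim ⟨ζ, hζ, fun Λ hΛ => hm Λ (mem_filter.1 hΛ).1 (mem_filter.1 hΛ).2⟩
  · push Not at hex
    apply thin_of_tendsto
    have hlt : ∀ Λ ∈ U, Λ ≠ Λ₁ → ‖Λ‖ < ‖Λ₁‖ := fun Λ hΛ hne =>
      lt_of_le_of_ne (hmax Λ hΛ) (hex Λ hΛ hne)
    have hv' : ∀ᶠ j : ℕ in atTop, v j = Λ₁ ^ j * (q Λ₁).eval (j : ℂ) +
        (∑ Λ ∈ U.erase Λ₁, Λ ^ j * (q Λ).eval (j : ℂ) +
        ∑ Λ ∈ B, Λ ^ j * (q Λ).eval (j : ℂ)) := by
      filter_upwards [hv] with j hj
      rw [hj, hsplit, ← add_sum_erase U _ hΛ₁U, add_assoc]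
    rcases hΛ₁.2 with h1 | ⟨h1, h2⟩
    · -- exponential growth
      have hΛ₁0 : Λ₁ ≠ 0 := hG0 Λ₁ hΛ₁.1
      obtain ⟨δ, hδ, hδ'⟩ := poly_below (q Λ₁) (hq Λ₁ hΛ₁.1)
      have hsmall : Tendsto (fun j : ℕ => ∑ Λ ∈ U.erase Λ₁, (Λ / Λ₁) ^ j * (q Λ).eval (j : ℂ) +
          ∑ Λ ∈ B, (Λ / Λ₁) ^ j * (q Λ).eval (j : ℂ)) atTop (𝓝 0) := by
        have h0 : (0 : ℂ) = ∑ Λ ∈ U.erase Λ₁, 0 + ∑ Λ ∈ B, 0 := by simp
        rw [h0]
        apply Tendsto.add
        · apply tendsto_finsetSum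
          intro Λ hΛ
          apply poly_geom
          rw [norm_div, div_lt_one (by linarith)]
          exact hlt Λ (mem_of_mem_erase hΛ) (ne_of_mem_erase hΛ)
        · apply tendsto_finsetSum
          intro Λ hΛ
          apply poly_geom
          rw [norm_div, div_lt_one (by linarith)]
          rw [hB, mem_filter] at hΛ
          have := hΛ.2
          push Not at this
          linarith [this.1]
      have hsm := (hsmall.norm).eventually_lt_const (u := δ / 2) (by rw [norm_zero]; linarith)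
      have hgrow : Tendsto (fun j : ℕ => ‖Λ₁‖ ^ j * (δ / 2)) atTop atTop :=
        (tendsto_pow_atTop_atTop_of_one_lt h1).atTop_mul_const (by linarith)
      refine tendsto_atTop_mono' _ ?_ hgrow
      filter_upwards [hv', hsm, hδ'] with j hj1 hj2 hj3
      have h3 : v j = Λ₁ ^ j * ((q Λ₁).eval (j : ℂ) +
          (∑ Λ ∈ U.erase Λ₁, (Λ / Λ₁) ^ j * (q Λ).eval (j : ℂ) +
          ∑ Λ ∈ B, (Λ / Λ₁) ^ j * (q Λ).eval (j : ℂ))) := by
        rw [hj1, mul_add, mul_add, mul_sum, mul_sum]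
        congr 1
        congr 1
        · apply sum_congr rfl
          intro Λ _
          rw [div_pow, ← mul_assoc, mul_div_cancel₀ _ (pow_ne_zero _ hΛ₁0)]
        · apply sum_congr rfl
          intro Λ _
          rw [div_pow, ← mul_assoc, mul_div_cancel₀ _ (pow_ne_zero _ hΛ₁0)]
      rw [h3, norm_mul, norm_pow]
      apply mul_le_mul_of_nonneg_left _ (by positivity)
      have h4 := norm_sub_le ((q Λ₁).eval (j : ℂ) +
          (∑ Λ ∈ U.erase Λ₁, (Λ / Λ₁) ^ j * (q Λ).eval (j : ℂ) +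
          ∑ Λ ∈ B, (Λ / Λ₁) ^ j * (q Λ).eval (j : ℂ))) (∑ Λ ∈ U.erase Λ₁, (Λ / Λ₁) ^ j *
          (q Λ).eval (j : ℂ) + ∑ Λ ∈ B, (Λ / Λ₁) ^ j * (q Λ).eval (j : ℂ))
      rw [add_sub_cancel_right] at h4
      linarith
    · -- polynomial growth
      have herase : U.erase Λ₁ = ∅ := by
        rw [eq_empty_iff_forall_notMem]
        intro Λ hΛ
        have h3 := hlt Λ (mem_of_mem_erase hΛ) (ne_of_mem_erase hΛ)
        have h4 := (mem_filter.1 (mem_of_mem_erase hΛ)).2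
        rcases h4 with h4 | h4 <;> linarith [h4]
      have hgrow := (poly_inf (q Λ₁) h2).atTop_add (tendsto_const_nhds (x := -h))
      refine tendsto_atTop_mono' _ ?_ hgrow
      filter_upwards [hv', hh] with j hj1 hj2
      rw [herase, sum_empty, zero_add] at hj1
      have h3 := norm_sub_le (v j) (∑ Λ ∈ B, Λ ^ j * (q Λ).eval (j : ℂ))
      have h4 : v j - ∑ Λ ∈ B, Λ ^ j * (q Λ).eval (j : ℂ) = Λ₁ ^ j * (q Λ₁).eval (j : ℂ) := by
        rw [hj1]; ring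
      rw [h4, norm_mul, norm_pow, h1, one_pow, one_mul] at h3
      linarith

/-! ### The spectral conditions -/

section Cond

variable {V : Type} [AddCommGroup V] [Module ℂ V]

/-- Two points of the circle are independent. -/
def Indep2 (z₁ z₂ : ℂ) : Prop := ∀ a b : ℤ, z₁ ^ a * z₂ ^ b = 1 → a = 0 ∧ b = 0

/-- Infinite order in the multiplicative group. -/
def InfOrd (z : ℂ) : Prop := ∀ n : ℕ, 0 < n → z ^ n ≠ 1

/-- `ker (T - l) ^ 2 ≠ ker (T - l)`. -/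
def Jord (T : Module.End ℂ V) (l : ℂ) : Prop :=
  LinearMap.ker ((T - l • 1) ^ 2) ≠ LinearMap.ker (T - l • 1)

/-- Condition (C1). -/
def C1 (T : Module.End ℂ V) : Prop := ∃ l₁ l₂ : ℂ, T.HasEigenvalue l₁ ∧ T.HasEigenvalue l₂ ∧
  ‖l₁‖ = ‖l₂‖ ∧ 1 < ‖l₁‖ ∧ Indep2 (l₁ / ‖l₁‖) (l₂ / ‖l₂‖)

/-- Condition (C2). -/
def C2 (T : Module.End ℂ V) : Prop := ∃ l₁ l₂ : ℂ, ‖l₁‖ = 1 ∧ ‖l₂‖ = 1 ∧ Indep2 l₁ l₂ ∧
  Jord T l₁ ∧ Jord T l₂

/-- Condition (C3). -/
def C3 (T : Module.End ℂ V) : Prop := ∃ l₁ l₂ l₃ : ℂ, T.HasEigenvalue l₁ ∧ T.HasEigenvalue l₂ ∧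
  T.HasEigenvalue l₃ ∧ ‖l₁‖ = ‖l₂‖ ∧ ‖l₃‖ < ‖l₁‖ ∧ 1 < ‖l₃‖ ∧ InfOrd (l₁ / l₂) ∧
  Indep2 (l₁ / ‖l₁‖) (l₃ / ‖l₃‖)

/-- Condition (C4). -/
def C4 (T : Module.End ℂ V) : Prop := ∃ l₁ l₂ l₃ : ℂ, T.HasEigenvalue l₁ ∧ T.HasEigenvalue l₂ ∧
  ‖l₃‖ = 1 ∧ Jord T l₃ ∧ ‖l₁‖ = ‖l₂‖ ∧ 1 < ‖l₁‖ ∧ InfOrd (l₁ / l₂) ∧ Indep2 (l₁ / ‖l₁‖) l₃

/-! ### Representation of orbits -/

/-- Eventually an exponential polynomial adapted to `T`. -/
def Rep (T : Module.End ℂ V) (v : ℕ → ℂ) : Prop := ∃ (F : Finset ℂ) (p : ℂ → Polynomial ℂ),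
  (∀ l ∈ F, l ≠ 0 ∧ T.HasEigenvalue l ∧ ((p l).natDegree ≠ 0 → Jord T l)) ∧
  ∀ᶠ k : ℕ in atTop, v k = ∑ l ∈ F, l ^ k * (p l).eval (k : ℂ)

theorem Rep.zero (T : Module.End ℂ V) (v : ℕ → ℂ) (hv : ∀ᶠ k : ℕ in atTop, v k = 0) :
    Rep T v := ⟨∅, fun _ => 0, by simp, by simpa using hv⟩

theorem Rep.add (T : Module.End ℂ V) (v v' : ℕ → ℂ) (h : Rep T v) (h' : Rep T v') :
    Rep T (fun k => v k + v' k) := by
  classical
  obtain ⟨F, p, hF, hp⟩ := h
  obtain ⟨F', p', hF', hp'⟩ := h'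
  refine ⟨F ∪ F', fun l => (if l ∈ F then p l else 0) + (if l ∈ F' then p' l else 0), ?_, ?_⟩
  · intro l hl
    have h1 : l ≠ 0 ∧ T.HasEigenvalue l := by
      rcases mem_union.1 hl with h | h
      · exact ⟨(hF l h).1, (hF l h).2.1⟩
      · exact ⟨(hF' l h).1, (hF' l h).2.1⟩
    refine ⟨h1.1, h1.2, fun hd => ?_⟩
    by_contra hJ
    apply hd
    have h2 : (if l ∈ F then p l else 0).natDegree = 0 := by
      split_ifs with h
      · by_contra h3
        exact hJ ((hF l h).2.2 h3)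
      · exact Polynomial.natDegree_zero
    have h3 : (if l ∈ F' then p' l else 0).natDegree = 0 := by
      split_ifs with h
      · by_contra h3
        exact hJ ((hF' l h).2.2 h3)
      · exact Polynomial.natDegree_zero
    have h4 := Polynomial.natDegree_add_le (if l ∈ F then p l else 0) (if l ∈ F' then p' l else 0)
    rw [h2, h3] at h4
    simpa using h4
  · filter_upwards [hp, hp'] with k h1 h2
    rw [h1, h2]
    simp only [Polynomial.eval_add, mul_add, sum_add_distrib]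
    congr 1
    · rw [← sum_subset (subset_union_left (s₁ := F) (s₂ := F'))]
      · apply sum_congr rfl
        intro l hl
        rw [if_pos hl]
      · intro l _ hl
        rw [if_neg hl]; simp
    · rw [← sum_subset (subset_union_right (s₁ := F) (s₂ := F'))]
      · apply sum_congr rfl
        intro l hl
        rw [if_pos hl]
      · intro l _ hl
        rw [if_neg hl]; simp

theorem Rep.base (T : Module.End ℂ V) (f : V →ₗ[ℂ] ℂ) (μ : ℂ) (x : V)
    (hx : x ∈ T.maxGenEigenspace μ) : Rep T (fun k => f ((T ^ k) x)) := by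
  classical
  rw [Module.End.mem_maxGenEigenspace] at hx
  obtain ⟨m, hm⟩ := hx
  by_cases hμ : μ = 0
  · apply Rep.zero
    filter_upwards [eventually_ge_atTop m] with k hk
    rw [hμ, zero_smul, sub_zero] at hm
    obtain ⟨s, rfl⟩ := Nat.exists_eq_add_of_le hk
    rw [add_comm, pow_add, Module.End.mul_apply, hm, map_zero, map_zero]
  by_cases hx0 : x = 0
  · apply Rep.zero
    exact Eventually.of_forall fun k => by rw [hx0, map_zero, map_zero]
  -- `μ` is an eigenvalue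
  have hE : T.HasEigenvalue μ := by
    have hex : ∃ i : ℕ, ((T - μ • (1 : Module.End ℂ V)) ^ i) x = 0 := ⟨m, hm⟩
    have h1 := Nat.find_spec hex
    have h0 : Nat.find hex ≠ 0 := by
      intro h0
      rw [h0, pow_zero] at h1
      exact hx0 h1
    obtain ⟨i, hi⟩ := Nat.exists_eq_succ_of_ne_zero h0
    have h2 := Nat.find_min hex (m := i) (by omega)
    apply Module.End.hasEigenvalue_of_hasEigenvector (x := ((T - μ • 1) ^ i) x)
    refine ⟨Module.End.mem_eigenspace_iff.2 ?_, h2⟩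
    rw [hi, pow_succ', Module.End.mul_apply] at h1
    have h3 : T (((T - μ • 1) ^ i) x) - μ • (((T - μ • 1) ^ i) x) = 0 := h1
    exact sub_eq_zero.1 h3
  by_cases hJ : Jord T μ
  · -- polynomial times geometric
    let p : Polynomial ℂ := ∑ i ∈ range m,
      Polynomial.C (μ⁻¹ ^ i * f (((T - μ • 1) ^ i) x) / (i.factorial : ℂ)) * descPochhammer ℂ i
    refine ⟨{μ}, fun _ => p, ?_, ?_⟩
    · intro l hl
      rw [mem_singleton] at hl
      rw [hl]
      exact ⟨hμ, hE, fun _ => hJ⟩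
    · filter_upwards [eventually_ge_atTop m] with k hk
      rw [sum_singleton]
      have hcomm : Commute (T - μ • 1) (μ • (1 : Module.End ℂ V)) :=
        (Algebra.commutes μ (T - μ • 1)).symm.trans (by rfl) |> fun h => by
          show (T - μ • 1) * (μ • 1) = (μ • 1) * (T - μ • 1)
          simp
      have h1 : T ^ k = ∑ i ∈ range (k + 1), (T - μ • 1) ^ i * (μ • 1) ^ (k - i) * (k.choose i) := by
        rw [← hcomm.add_pow, sub_add_cancel]
      have h2 : f ((T ^ k) x) = ∑ i ∈ range (k + 1),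
          f (((T - μ • 1) ^ i) x) * μ ^ (k - i) * (k.choose i) := by
        rw [h1, LinearMap.sum_apply, map_sum]
        apply sum_congr rfl
        intro i _
        rw [Module.End.mul_apply, Module.End.mul_apply]
        have h3 : ((k.choose i : ℕ) : Module.End ℂ V) x = ((k.choose i : ℕ) : ℂ) • x := by
          rw [← nsmul_one (k.choose i), LinearMap.smul_apply, Module.End.one_apply]
          exact (Nat.cast_smul_eq_nsmul ℂ _ _).symm
        rw [h3, smul_pow, one_pow, LinearMap.smul_apply, Module.End.one_apply, map_smul, map_smul,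
          map_smul, map_smul, smul_eq_mul, smul_eq_mul]
        ring
      have h4 : f ((T ^ k) x) = ∑ i ∈ range m,
          f (((T - μ • 1) ^ i) x) * μ ^ (k - i) * (k.choose i) := by
        rw [h2]
        symm
        apply sum_subset (range_subset_range.2 (by omega))
        intro i _ hi
        rw [mem_range, not_lt] at hi
        obtain ⟨s, rfl⟩ := Nat.exists_eq_add_of_le hi
        rw [add_comm, pow_add, Module.End.mul_apply, hm, map_zero, map_zero]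
        ring
      rw [h4, Polynomial.eval_finsetSum, mul_sum]
      apply sum_congr rfl
      intro i hi
      rw [mem_range] at hi
      rw [Polynomial.eval_mul, Polynomial.eval_C, descPochhammer_eval_eq_descFactorial,
        Nat.descFactorial_eq_factorial_mul_choose]
      have h5 : (i.factorial : ℂ) ≠ 0 := by exact_mod_cast i.factorial_ne_zero
      have h6 : μ ^ k = μ ^ (k - i) * μ ^ i := by
        rw [← pow_add]; congr 1; omega
      rw [h6]
      push_cast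
      have h7 : μ ^ i * μ⁻¹ ^ i = 1 := by rw [← mul_pow, mul_inv_cancel₀ hμ, one_pow]
      have h8 : μ⁻¹ ^ i * f (((T - μ • 1) ^ i) x) / (i.factorial : ℂ) *
          ((i.factorial : ℂ) * (k.choose i : ℂ)) =
          μ⁻¹ ^ i * f (((T - μ • 1) ^ i) x) * (k.choose i : ℂ) := by
        rw [div_mul_eq_mul_div, mul_div_assoc, mul_div_cancel_left₀ _ h5]
      rw [h8]
      linear_combination (-(f (((T - μ • 1) ^ i) x) * μ ^ (k - i) * (k.choose i : ℂ))) * h7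
  · -- a genuine eigenvector
    have hker : LinearMap.ker ((T - μ • 1) ^ 2) = LinearMap.ker (T - μ • 1) := by
      by_contra hno; exact hJ hno
    have hstep : ∀ i : ℕ, ((T - μ • (1 : Module.End ℂ V)) ^ (i + 1)) x = 0 →
        (T - μ • (1 : Module.End ℂ V)) x = 0 := by
      intro i
      induction i with
      | zero => intro h; simpa using h
      | succ i ih =>
        intro h
        apply ih
        have h1 : ((T - μ • 1) ^ i) x ∈ LinearMap.ker ((T - μ • 1) ^ 2) := by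
          rw [LinearMap.mem_ker, ← Module.End.mul_apply, ← pow_add]
          rw [show 2 + i = i + 1 + 1 by ring]
          exact h
        rw [hker, LinearMap.mem_ker, ← Module.End.mul_apply, ← pow_succ'] at h1
        exact h1
    have hTx : (T - μ • 1) x = 0 := by
      rcases Nat.eq_zero_or_pos m with h0 | h0
      · rw [h0, pow_zero] at hm
        exact absurd hm hx0
      · obtain ⟨i, rfl⟩ := Nat.exists_eq_succ_of_ne_zero h0.ne'
        exact hstep i hm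
    have hTx' : T x = μ • x := by
      have h3 : T x - μ • x = 0 := hTx
      exact sub_eq_zero.1 h3
    have hpow : ∀ k : ℕ, (T ^ k) x = μ ^ k • x := by
      intro k
      induction k with
      | zero => simp
      | succ k ih =>
        rw [pow_succ', Module.End.mul_apply, ih, map_smul, hTx', smul_smul, ← pow_succ]
    refine ⟨{μ}, fun _ => Polynomial.C (f x), ?_, ?_⟩
    · intro l hl
      rw [mem_singleton] at hl
      rw [hl]
      refine ⟨hμ, hE, fun hd => absurd (Polynomial.natDegree_C _) hd⟩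
    · refine Eventually.of_forall fun k => ?_
      simp [hpow]

theorem Rep.all [FiniteDimensional ℂ V] (T : Module.End ℂ V) (f : V →ₗ[ℂ] ℂ) (x : V) :
    Rep T (fun k => f ((T ^ k) x)) := by
  have hx : x ∈ ⨆ μ, T.maxGenEigenspace μ := by
    rw [Module.End.iSup_maxGenEigenspace_eq_top]; trivial
  refine Submodule.iSup_induction (fun μ => T.maxGenEigenspace μ)
    (motive := fun x => Rep T (fun k => f ((T ^ k) x))) hx ?_ ?_ ?_
  · intro μ x hx
    exact Rep.base T f μ x hx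
  · exact Rep.zero T _ (Eventually.of_forall fun k => by simp)
  · intro x y hx hy
    have := Rep.add T _ _ hx hy
    simpa using this

/-! ### The exponent `N` -/

theorem common_mult {α : Type*} (F : Finset α) (Q : α → ℕ → Prop)
    (hQ : ∀ x n k, Q x n → Q x (n * k)) (h : ∀ x ∈ F, ∃ n, 0 < n ∧ Q x n) :
    ∃ n, 0 < n ∧ ∀ x ∈ F, Q x n := by
  classical
  induction F using Finset.induction_on with
  | empty => exact ⟨1, one_pos, by simp⟩
  | insert a F ha ih =>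
    obtain ⟨n, hn, hF⟩ := ih (fun x hx => h x (mem_insert_of_mem hx))
    obtain ⟨k, hk, hak⟩ := h a (mem_insert_self _ _)
    refine ⟨n * k, Nat.mul_pos hn hk, fun x hx => ?_⟩
    rcases mem_insert.1 hx with h | h
    · rw [h, mul_comm]; exact hQ _ _ _ hak
    · exact hQ _ _ _ (hF x h)

theorem exists_N (F : Finset ℂ) : ∃ N, 0 < N ∧ ∀ x ∈ F ×ˢ F,
    ((∃ k : ℕ, 0 < k ∧ (x.1 / x.2) ^ k = 1) → (x.1 / x.2) ^ N = 1) ∧
    ((∃ a b : ℤ, b ≠ 0 ∧ (x.1 / ‖x.1‖) ^ a * (x.2 / ‖x.2‖) ^ b = 1) →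
      ∃ m : ℤ, (x.2 / (‖x.2‖ : ℂ)) ^ N = (x.1 / (‖x.1‖ : ℂ)) ^ m) := by
  apply common_mult (F ×ˢ F) (fun x n =>
    ((∃ k : ℕ, 0 < k ∧ (x.1 / x.2) ^ k = 1) → (x.1 / x.2) ^ n = 1) ∧
    ((∃ a b : ℤ, b ≠ 0 ∧ (x.1 / ‖x.1‖) ^ a * (x.2 / ‖x.2‖) ^ b = 1) →
      ∃ m : ℤ, (x.2 / (‖x.2‖ : ℂ)) ^ n = (x.1 / (‖x.1‖ : ℂ)) ^ m))
  · rintro x n k ⟨h1, h2⟩
    refine ⟨fun h => ?_, fun h => ?_⟩
    · rw [pow_mul, h1 h, one_pow]
    · obtain ⟨m, hm⟩ := h2 h
      exact ⟨m * k, by rw [pow_mul, hm, zpow_mul, zpow_natCast]⟩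
  · rintro x _
    obtain ⟨n₁, hn₁, h1⟩ : ∃ n, 0 < n ∧
        ((∃ k : ℕ, 0 < k ∧ (x.1 / x.2) ^ k = 1) → (x.1 / x.2) ^ n = 1) := by
      by_cases h : ∃ k : ℕ, 0 < k ∧ (x.1 / x.2) ^ k = 1
      · obtain ⟨k, hk, hk'⟩ := h
        exact ⟨k, hk, fun _ => hk'⟩
      · exact ⟨1, one_pos, fun h' => absurd h' h⟩
    obtain ⟨n₂, hn₂, h2⟩ : ∃ n, 0 < n ∧
        ((∃ a b : ℤ, b ≠ 0 ∧ (x.1 / ‖x.1‖) ^ a * (x.2 / ‖x.2‖) ^ b = 1) →
      ∃ m : ℤ, (x.2 / (‖x.2‖ : ℂ)) ^ n = (x.1 / (‖x.1‖ : ℂ)) ^ m) := by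
      by_cases h : ∃ a b : ℤ, b ≠ 0 ∧ (x.1 / (‖x.1‖ : ℂ)) ^ a * (x.2 / (‖x.2‖ : ℂ)) ^ b = 1
      · obtain ⟨a, b, hb, hab⟩ := h
        refine ⟨b.natAbs, Int.natAbs_pos.2 hb, fun _ => ?_⟩
        have h3 : (x.2 / (‖x.2‖ : ℂ)) ^ b = (x.1 / (‖x.1‖ : ℂ)) ^ (-a) := by
          rw [zpow_neg]
          exact eq_inv_of_mul_eq_one_right hab
        rcases Int.natAbs_eq b with h4 | h4
        · refine ⟨-a, ?_⟩
          rw [← zpow_natCast, ← h4, h3]
        · refine ⟨a, ?_⟩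
          rw [← zpow_natCast, show ((b.natAbs : ℕ) : ℤ) = -b by omega, zpow_neg, h3, zpow_neg,
            inv_inv]
      · exact ⟨1, one_pos, fun h' => absurd h' h⟩
    refine ⟨n₁ * n₂, Nat.mul_pos hn₁ hn₂, fun h => ?_, fun h => ?_⟩
    · rw [pow_mul, h1 h, one_pow]
    · obtain ⟨m, hm⟩ := h2 h
      exact ⟨m * n₁, by rw [mul_comm, pow_mul, hm, zpow_mul, zpow_natCast]⟩

theorem main_rep (T : Module.End ℂ V) (h1 : ¬ C1 T) (h2 : ¬ C2 T) (h3 : ¬ C3 T) (h4 : ¬ C4 T)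
    (v : ℕ → ℂ) (hv : Rep T v) : ¬ Dense (Set.range v) := by
  classical
  obtain ⟨F, p, hF, hp⟩ := hv
  obtain ⟨N, hN, hNF⟩ := exists_N F
  apply not_dense v N hN
  intro r _
  let q : ℂ → Polynomial ℂ := fun Λ => ∑ l ∈ F.filter (fun l => l ^ N = Λ),
    Polynomial.C (l ^ r) * (p l).comp (Polynomial.C (N : ℂ) * Polynomial.X + Polynomial.C (r : ℂ))
  let G₀ := F.image (fun l => l ^ N)
  let G := G₀.filter (fun Λ => q Λ ≠ 0)
  have hlift : ∀ Λ ∈ G, ∃ l ∈ F, l ^ N = Λ ∧ ((q Λ).natDegree ≠ 0 → Jord T l) := by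
    intro Λ hΛ
    by_cases hd : (q Λ).natDegree = 0
    · obtain ⟨l, hl, hl'⟩ := mem_image.1 (mem_filter.1 hΛ).1
      exact ⟨l, hl, hl', fun h => absurd hd h⟩
    · by_contra hno
      push Not at hno
      apply hd
      rw [← Nat.le_zero]
      apply Polynomial.natDegree_sum_le_of_forall_le
      intro l hl
      obtain ⟨hlF, hlN⟩ := mem_filter.1 hl
      have h5 := (hno l hlF hlN).2
      have h6 : (p l).natDegree = 0 := by
        by_contra h7
        exact h5 ((hF l hlF).2.2 h7)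
      refine (Polynomial.natDegree_C_mul_le _ _).trans ?_
      rw [Polynomial.natDegree_comp, h6, zero_mul]
  have hev : ∀ᶠ j : ℕ in atTop, v (N * j + r) = ∑ Λ ∈ G, Λ ^ j * (q Λ).eval (j : ℂ) := by
    have ht : Tendsto (fun j : ℕ => N * j + r) atTop atTop :=
      tendsto_atTop_atTop.2 fun b => ⟨b, fun a ha => by nlinarith⟩
    filter_upwards [ht.eventually hp] with j hj
    rw [hj]
    have h5 : ∑ Λ ∈ G, Λ ^ j * (q Λ).eval (j : ℂ) = ∑ Λ ∈ G₀, Λ ^ j * (q Λ).eval (j : ℂ) := by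
      apply sum_filter_of_ne
      intro Λ _ h6 h7
      apply h6
      rw [h7, Polynomial.eval_zero, mul_zero]
    rw [h5, ← sum_fiberwise_of_maps_to (s := F) (t := G₀) (g := fun l => l ^ N)
      (fun l hl => mem_image_of_mem _ hl)]
    apply sum_congr rfl
    intro Λ _
    rw [Polynomial.eval_finsetSum, mul_sum]
    apply sum_congr rfl
    intro l hl
    obtain ⟨_, hlN⟩ := mem_filter.1 hl
    have hlN' : l ^ N = Λ := hlN
    rw [Polynomial.eval_mul, Polynomial.eval_C, Polynomial.eval_comp, Polynomial.eval_add,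
      Polynomial.eval_mul, Polynomial.eval_C, Polynomial.eval_C, Polynomial.eval_X, ← hlN']
    push_cast
    ring
  have hpow : ∀ l : ℂ, ‖l ^ N‖ = ‖l‖ ^ N := fun l => norm_pow l N
  -- the key construction
  have key : ∀ l₁ ∈ F, ∀ l₂ ∈ F, l₁ ^ N ≠ l₂ ^ N → ‖l₁‖ = ‖l₂‖ → InfOrd (l₁ / ‖l₁‖) →
      1 ≤ ‖l₁‖ → (‖l₁‖ = 1 → Jord T l₁) →
      (∀ Λ ∈ G, (1 < ‖Λ‖ ∨ (‖Λ‖ = 1 ∧ (q Λ).natDegree ≠ 0)) → ‖Λ‖ ≤ ‖l₁‖ ^ N) →
      ∃ ζ : ℂ, ‖ζ‖ = 1 ∧ ∀ Λ ∈ G, (1 < ‖Λ‖ ∨ (‖Λ‖ = 1 ∧ (q Λ).natDegree ≠ 0)) →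
        ∃ m : ℤ, Λ = ‖Λ‖ * ζ ^ m := by
    intro l₁ hl₁ l₂ hl₂ hne hnorm hinf hge hJ hmax
    have hl₁0 : ‖l₁‖ ≠ 0 := by positivity
    have hinf12 : InfOrd (l₁ / l₂) := by
      intro n hn hn1
      have h5 := (hNF (l₁, l₂) (mem_product.2 ⟨hl₁, hl₂⟩)).1 ⟨n, hn, hn1⟩
      have h6 : (l₁ / l₂) ^ N = 1 := h5
      rw [div_pow, div_eq_one_iff_eq (pow_ne_zero _ (hF l₂ hl₂).1)] at h6
      exact hne h6
    refine ⟨l₁ / ‖l₁‖, ?_, ?_⟩
    · rw [norm_div, Complex.norm_real, norm_norm, div_self hl₁0]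
    · intro Λ hΛ hΛU
      obtain ⟨l, hl, hlN, hlJ⟩ := hlift Λ hΛ
      have hlE := (hF l hl).2.1
      have hl0 : l ≠ 0 := (hF l hl).1
      have hln0 : ‖l‖ ≠ 0 := norm_ne_zero_iff.2 hl0
      have hΛn : ‖Λ‖ = ‖l‖ ^ N := by rw [← hlN, hpow]
      have hle : ‖l‖ ≤ ‖l₁‖ := by
        have := hmax Λ hΛ hΛU
        rw [hΛn] at this
        exact (pow_le_pow_iff_left₀ (norm_nonneg _) (norm_nonneg _) hN.ne').1 this
      have hunit : ‖l‖ ≤ 1 → ‖l‖ = 1 ∧ Jord T l := by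
        intro h5
        have h6 : ‖Λ‖ ≤ 1 := by rw [hΛn]; exact pow_le_one₀ (norm_nonneg _) h5
        rcases hΛU with h7 | ⟨h7, h8⟩
        · linarith
        · rw [hΛn] at h7
          exact ⟨(pow_eq_one_iff_of_nonneg (norm_nonneg _) hN.ne').1 h7, hlJ h8⟩
      have hdep : ¬ Indep2 (l₁ / ‖l₁‖) (l / ‖l‖) := by
        intro hind
        by_cases hgt : 1 < ‖l₁‖
        · by_cases heq : ‖l‖ = ‖l₁‖
          · exact h1 ⟨l₁, l, (hF l₁ hl₁).2.1, hlE, heq.symm, hgt, hind⟩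
          · have hlt : ‖l‖ < ‖l₁‖ := lt_of_le_of_ne hle heq
            by_cases hgt' : 1 < ‖l‖
            · exact h3 ⟨l₁, l₂, l, (hF l₁ hl₁).2.1, (hF l₂ hl₂).2.1, hlE, hnorm, hlt, hgt',
                hinf12, hind⟩
            · obtain ⟨h5, h6⟩ := hunit (not_lt.1 hgt')
              rw [h5, Complex.ofReal_one, div_one] at hind
              exact h4 ⟨l₁, l₂, l, (hF l₁ hl₁).2.1, (hF l₂ hl₂).2.1, h5, h6, hnorm, hgt,
                hinf12, hind⟩
        · have h7 : ‖l₁‖ = 1 := le_antisymm (not_lt.1 hgt) hge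
          obtain ⟨h5, h6⟩ := hunit (by linarith)
          rw [h5, h7, Complex.ofReal_one, div_one, div_one] at hind
          exact h2 ⟨l₁, l, h7, h5, hind, hJ h7, h6⟩
      unfold Indep2 at hdep
      push Not at hdep
      obtain ⟨a, b, hab, hab'⟩ := hdep
      have hb : b ≠ 0 := by
        intro hb
        rw [hb, zpow_zero, mul_one] at hab
        have ha : a ≠ 0 := fun ha => hab' ha hb
        rcases Int.natAbs_eq a with h5 | h5
        · apply hinf a.natAbs (Int.natAbs_pos.2 ha)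
          rw [← zpow_natCast, ← h5, hab]
        · apply hinf a.natAbs (Int.natAbs_pos.2 ha)
          rw [← zpow_natCast, show ((a.natAbs : ℕ) : ℤ) = -a by omega, zpow_neg, hab, inv_one]
      obtain ⟨m, hm⟩ := (hNF (l₁, l) (mem_product.2 ⟨hl₁, hl⟩)).2 ⟨a, b, hb, hab⟩
      refine ⟨m, ?_⟩
      have hm' : (l / (‖l‖ : ℂ)) ^ N = (l₁ / (‖l₁‖ : ℂ)) ^ m := hm
      rw [← hm', ← hlN, hpow, div_pow, Complex.ofReal_pow, mul_div_cancel₀]
      exact pow_ne_zero _ (by exact_mod_cast hln0)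
  apply classD (fun j => v (N * j + r)) G q
  · intro Λ hΛ
    obtain ⟨l, hl, hlN, _⟩ := hlift Λ hΛ
    rw [← hlN]
    exact pow_ne_zero _ (hF l hl).1
  · intro Λ hΛ
    exact (mem_filter.1 hΛ).2
  · exact hev
  · intro Λ₁ hΛ₁ Λ₂ hΛ₂ hne hnorm hU₁ hU₂ hmax
    obtain ⟨l₁, hl₁, hlN₁, hlJ₁⟩ := hlift Λ₁ hΛ₁
    obtain ⟨l₂, hl₂, hlN₂, hlJ₂⟩ := hlift Λ₂ hΛ₂
    have hn₁ : ‖Λ₁‖ = ‖l₁‖ ^ N := by rw [← hlN₁, hpow]
    have hn₂ : ‖Λ₂‖ = ‖l₂‖ ^ N := by rw [← hlN₂, hpow]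
    have hnl : ‖l₁‖ = ‖l₂‖ := by
      rw [hn₁, hn₂] at hnorm
      exact (pow_left_inj₀ (norm_nonneg _) (norm_nonneg _) hN.ne').1 hnorm
    have hgen : ∀ (Λ l : ℂ), ‖Λ‖ = ‖l‖ ^ N → (1 < ‖Λ‖ ∨ (‖Λ‖ = 1 ∧ (q Λ).natDegree ≠ 0)) →
        ((q Λ).natDegree ≠ 0 → Jord T l) → 1 ≤ ‖l‖ ∧ (‖l‖ = 1 → Jord T l) := by
      intro Λ l hn hU hJ
      rcases hU with h5 | ⟨h5, h6⟩
      · rw [hn, one_lt_pow_iff_of_nonneg (norm_nonneg _) hN.ne'] at h5
        exact ⟨h5.le, fun h6 => absurd h6 h5.ne'⟩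
      · rw [hn, pow_eq_one_iff_of_nonneg (norm_nonneg _) hN.ne'] at h5
        exact ⟨h5.ge, fun _ => hJ h6⟩
    obtain ⟨hg₁, hg₁'⟩ := hgen Λ₁ l₁ hn₁ hU₁ hlJ₁
    obtain ⟨hg₂, hg₂'⟩ := hgen Λ₂ l₂ hn₂ hU₂ hlJ₂
    have hne' : l₁ ^ N ≠ l₂ ^ N := by rw [hlN₁, hlN₂]; exact hne
    by_cases hinf : InfOrd (l₁ / ‖l₁‖)
    · exact key l₁ hl₁ l₂ hl₂ hne' hnl hinf hg₁ hg₁' (fun Λ hΛ hU => by
        rw [← hn₁]; exact hmax Λ hΛ hU)
    · have hinf2 : InfOrd (l₂ / ‖l₂‖) := by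
        intro n₂ hn₂0 hn₂'
        apply hinf
        intro n₁ hn₁0 hn₁'
        have h5 : (l₁ / l₂) ^ (n₁ * n₂) = 1 := by
          have h6 : l₁ / l₂ = (l₁ / ‖l₁‖) / (l₂ / ‖l₂‖) := by
            rw [← hnl]
            have h7 : (‖l₁‖ : ℂ) ≠ 0 := by
              exact_mod_cast (by positivity : ‖l₁‖ ≠ 0)
            have h8 := (hF l₂ hl₂).1
            field_simp
          rw [h6, div_pow, pow_mul, hn₁', one_pow, mul_comm, pow_mul, hn₂', one_pow, div_one]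
        have h6 := (hNF (l₁, l₂) (mem_product.2 ⟨hl₁, hl₂⟩)).1
          ⟨n₁ * n₂, Nat.mul_pos hn₁0 hn₂0, h5⟩
        have h7 : (l₁ / l₂) ^ N = 1 := h6
        rw [div_pow, div_eq_one_iff_eq (pow_ne_zero _ (hF l₂ hl₂).1)] at h7
        exact hne' h7
      exact key l₂ hl₂ l₁ hl₁ hne'.symm hnl.symm hinf2 hg₂ hg₂' (fun Λ hΛ hU => by
        rw [← hn₂, ← hnorm]; exact hmax Λ hΛ hU)

end Cond

/-! ### Numerical hypercyclicity -/

/-- Numerically hypercyclic operators. -/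
def NumHyp {X : Type} [NormedAddCommGroup X] [NormedSpace ℂ X] (T : X →L[ℂ] X) : Prop :=
  ∃ (x : X) (f : X →L[ℂ] ℂ), ‖x‖ = 1 ∧ ‖f‖ = 1 ∧ f x = 1 ∧
    Dense (Set.range fun k : ℕ => f ((T ^ k) x))

/-- Weakly numerically hypercyclic operators: similar to a numerically hypercyclic one. -/
def WeakNumHyp {X : Type} [NormedAddCommGroup X] [NormedSpace ℂ X] (T : X →L[ℂ] X) : Prop :=
  ∃ (Y : Type) (_ : NormedAddCommGroup Y) (_ : NormedSpace ℂ Y) (_ : CompleteSpace Y)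
    (J : X ≃L[ℂ] Y) (S : Y →L[ℂ] Y), NumHyp S ∧ ∀ v, T v = J.symm (S (J v))

/-- Every weakly numerically hypercyclic operator on `ℂ ^ n` satisfies one of (C1)-(C4). -/
theorem result (n : ℕ) (T : EuclideanSpace ℂ (Fin n) →L[ℂ] EuclideanSpace ℂ (Fin n))
    (hT : WeakNumHyp T) :
    C1 (T : Module.End ℂ (EuclideanSpace ℂ (Fin n))) ∨
    C2 (T : Module.End ℂ (EuclideanSpace ℂ (Fin n))) ∨
    C3 (T : Module.End ℂ (EuclideanSpace ℂ (Fin n))) ∨
    C4 (T : Module.End ℂ (EuclideanSpace ℂ (Fin n))) := by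
  by_contra hno
  push Not at hno
  obtain ⟨h1, h2, h3, h4⟩ := hno
  obtain ⟨Y, _, _, _, J, S, ⟨x, f, _, _, _, hd⟩, hJ⟩ := hT
  let T' : Module.End ℂ (EuclideanSpace ℂ (Fin n)) := T
  let f' : EuclideanSpace ℂ (Fin n) →ₗ[ℂ] ℂ :=
    (f : Y →ₗ[ℂ] ℂ).comp (J.toLinearEquiv : EuclideanSpace ℂ (Fin n) →ₗ[ℂ] Y)
  have hpow : ∀ k : ℕ, J ((T' ^ k) (J.symm x)) = (S ^ k) x := by
    intro k
    induction k with
    | zero => simp
    | succ k ih =>
      rw [pow_succ', Module.End.mul_apply, pow_succ']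
      show J (T _) = S ((S ^ k) x)
      rw [hJ, ContinuousLinearEquiv.apply_symm_apply, ih]
  have hrep := Rep.all T' f' (J.symm x)
  apply main_rep T' h1 h2 h3 h4 _ hrep
  have h5 : (fun k : ℕ => f' ((T' ^ k) (J.symm x))) = fun k : ℕ => f ((S ^ k) x) := by
    funext k
    show f (J ((T' ^ k) (J.symm x))) = _
    rw [hpow]
  rw [h5]
  exact hd

end Pool.Agent.Results.MP_fe3f7a_an.WeakNH
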